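import Mathlib
import Pool.Agent.Helper872.EH.Final
set_option autoImplicit false
open MvPolynomial
open scoped LinearAlgebra.Projectivization
open Pool.Agent.Helper872.EH

namespace Pool.Agent.Results.MP_8a2735_ag.CanonicalQuadricSection

universe u

/-- Q1 fails: over every field `K` of characteristic zero there are twenty `K`-points of `ℙ^5` in
uniform position with `h_Γ(2) = 14 = 2·5 + 4` (so `r = 5`, `α = 4`, `n = 20 ≥ 2r + 2α + 1 = 19`)
such that every curve through `Γ` has degree at least `10 > 8 = r - 1 + α`.  Hence the assertion of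
Q1 is false. -/
theorem result : ∀ (K : Type u) [Field K] [CharZero K],
    (∃ Γ : Finset (ℙ K (Fin (5 + 1) → K)), Γ.card = 20 ∧ UniformPosition Γ ∧ hilb Γ 2 = 14 ∧
      ∀ I : Ideal (MvPolynomial (Fin (5 + 1)) K), IsCurve I → LiesOn Γ I →
        ∀ e : ℕ, HasDegree I e → 10 ≤ e) ∧
    ¬ (∀ r α : ℕ, 2 ≤ r → 1 ≤ α → α ≤ r - 1 → Assertion K r α) := by
  intro K _ _
  refine ⟨main K, fun h => ?_⟩
  exact not_assertion K (h 5 4 (by norm_num) (by norm_num) (by norm_num))

end Pool.Agent.Results.MP_8a2735_ag.CanonicalQuadricSection
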